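import Pool.Agent.H586.AF.A

/-!
Laplace asymptotics of three one-dimensional integrals (task AF-H of helper586).
-/

set_option autoImplicit false

open MeasureTheory Matrix Finset Filter Topology

namespace Pool.Agent.H117.AF

open Pool.Agent.H586.AF

noncomputable section

/-- the constants of the moments -/
def Kj (j : ℕ) : ℝ := 1 / 2 * Real.Gamma ((j : ℝ) + 1 / 2)

theorem Kj_pos (j : ℕ) : 0 < Kj j := by
  unfold Kj
  have h : (0 : ℝ) < (j : ℝ) + 1 / 2 := by positivity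
  have := Real.Gamma_pos_of_pos h
  positivity

theorem mom (j : ℕ) {b : ℝ} (hb : 0 < b) :
    ∫ x in Set.Ioi (0 : ℝ), x ^ (2 * j) * Real.exp (-b * x ^ 2) =
      Kj j * b ^ (-((j : ℝ) + 1 / 2)) := by
  have h := integral_rpow_mul_exp_neg_mul_rpow (p := 2) (q := ((2 * j : ℕ) : ℝ)) (b := b)
    (by norm_num) (by have := Nat.cast_nonneg (α := ℝ) (2 * j); linarith) hb
  have h2 : ∫ x in Set.Ioi (0 : ℝ), x ^ (2 * j) * Real.exp (-b * x ^ 2) =
      ∫ x in Set.Ioi (0 : ℝ), x ^ ((2 * j : ℕ) : ℝ) * Real.exp (-b * x ^ (2 : ℝ)) := by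
    congr 1
    funext x
    rw [Real.rpow_natCast, Real.rpow_two]
  rw [h2, h]
  unfold Kj
  have h3 : (((2 * j : ℕ) : ℝ) + 1) / 2 = (j : ℝ) + 1 / 2 := by push_cast; ring
  have h4 : -(((2 * j : ℕ) : ℝ) + 1) / 2 = -((j : ℝ) + 1 / 2) := by push_cast; ring
  rw [h3, h4]
  ring

theorem momI (j : ℕ) {b : ℝ} (hb : 0 < b) :
    IntegrableOn (fun x : ℝ => x ^ (2 * j) * Real.exp (-b * x ^ 2)) (Set.Ioi 0) := by
  have h := integrableOn_rpow_mul_exp_neg_mul_sq hb (s := ((2 * j : ℕ) : ℝ))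
    (by have := Nat.cast_nonneg (α := ℝ) (2 * j); linarith)
  refine h.congr_fun (fun x _ => ?_) measurableSet_Ioi
  simp only [Real.rpow_natCast]

/-- the constant of Jordan's inequality -/
def cJ : ℝ := 4 / Real.pi ^ 2

theorem cJ_pos : 0 < cJ := by
  unfold cJ
  have := Real.pi_pos
  positivity

theorem cJ_le : cJ ≤ 1 := by
  unfold cJ
  have := Real.pi_gt_three
  rw [div_le_one (by positivity)]
  nlinarith

theorem ek_eq (k : ℝ) : ek k = 4 * Real.sin (k / 2) ^ 2 := by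
  unfold ek
  have h := Real.cos_two_mul (k / 2)
  have h2 := Real.sin_sq_add_cos_sq (k / 2)
  rw [show 2 * (k / 2) = k by ring] at h
  rw [h]
  linarith

theorem ek_nonneg (k : ℝ) : 0 ≤ ek k := by
  rw [ek_eq]; positivity

theorem ek_le_four (k : ℝ) : ek k ≤ 4 := by
  unfold ek
  have := Real.neg_one_le_cos k
  linarith

theorem ek_ge {k : ℝ} (h0 : 0 ≤ k) (h1 : k ≤ Real.pi) : cJ * k ^ 2 ≤ ek k := by
  have hpi := Real.pi_pos
  rw [ek_eq]
  have h2 := Real.mul_le_sin (x := k / 2) (by linarith) (by linarith)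
  have h3 : 2 / Real.pi * (k / 2) = k / Real.pi := by field_simp
  rw [h3] at h2
  have h4 : 0 ≤ k / Real.pi := by positivity
  have h5 : (k / Real.pi) ^ 2 ≤ Real.sin (k / 2) ^ 2 := pow_le_pow_left₀ h4 h2 2
  have h6 : cJ * k ^ 2 = 4 * (k / Real.pi) ^ 2 := by
    unfold cJ
    rw [div_pow]
    ring
  rw [h6]
  linarith

theorem ek_le (k : ℝ) : ek k ≤ k ^ 2 := by
  unfold ek
  have := Real.one_sub_sq_div_two_le_cos (x := k)
  linarith

theorem sq_sub_ek {k : ℝ} (h0 : 0 ≤ k) : k ^ 2 - ek k ≤ k ^ 4 := by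
  by_cases h1 : k ≤ 1
  · have h2 := Real.cos_bound (x := k) (by rw [abs_of_nonneg h0]; exact h1)
    rw [abs_of_nonneg h0] at h2
    have h3 := (abs_le.1 h2).2
    unfold ek
    have h4 : 0 ≤ k ^ 4 := by positivity
    nlinarith
  · have h1' : 1 ≤ k := (not_le.1 h1).le
    have h2 := ek_nonneg k
    have h3 : k ^ 2 ≤ k ^ 4 := pow_le_pow_right₀ h1' (by norm_num)
    linarith

theorem sq_sub_sin {k : ℝ} (h0 : 0 ≤ k) : k ^ 2 - Real.sin k ^ 2 ≤ k ^ 4 := by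
  by_cases h1 : k ≤ 1
  · rcases h0.eq_or_lt with h | h
    · rw [← h]; simp
    · have h2 := Real.sin_gt_sub_cube h
      have h3 : 0 ≤ k - k ^ 3 / 6 := by nlinarith [pow_le_one₀ (n := 2) h0 h1]
      have h4 : (k - k ^ 3 / 6) ^ 2 ≤ Real.sin k ^ 2 := pow_le_pow_left₀ h3 h2.le 2
      nlinarith [sq_nonneg (k ^ 3), sq_nonneg (k ^ 2)]
  · have h1' : 1 ≤ k := (not_le.1 h1).le
    have h3 : k ^ 2 ≤ k ^ 4 := pow_le_pow_right₀ h1' (by norm_num)
    have := sq_nonneg (Real.sin k)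
    linarith

theorem exp_diff {k t : ℝ} (ht : 0 ≤ t) (h0 : 0 ≤ k) (h1 : k ≤ Real.pi) :
    |Real.exp (-t * ek k) - Real.exp (-t * k ^ 2)| ≤
      t * k ^ 4 * Real.exp (-(cJ * t) * k ^ 2) := by
  have e1 : Real.exp (-t * k ^ 2) =
      Real.exp (-t * ek k) * Real.exp (-(t * (k ^ 2 - ek k))) := by
    rw [← Real.exp_add]
    congr 1
    ring
  have h2 : 0 ≤ t * (k ^ 2 - ek k) := mul_nonneg ht (by linarith [ek_le k])
  have h3 : Real.exp (-(t * (k ^ 2 - ek k))) ≤ 1 := Real.exp_le_one_iff.2 (by linarith)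
  have h4 := Real.add_one_le_exp (-(t * (k ^ 2 - ek k)))
  have h5 : 0 ≤ Real.exp (-t * ek k) - Real.exp (-t * k ^ 2) := by
    rw [e1]
    nlinarith [Real.exp_pos (-t * ek k)]
  rw [abs_of_nonneg h5, e1]
  have h6 : Real.exp (-t * ek k) ≤ Real.exp (-(cJ * t) * k ^ 2) := by
    apply Real.exp_le_exp.2
    have := mul_le_mul_of_nonneg_left (ek_ge h0 h1) ht
    nlinarith
  have h7 : 1 - Real.exp (-(t * (k ^ 2 - ek k))) ≤ t * k ^ 4 := by
    have := mul_le_mul_of_nonneg_left (sq_sub_ek h0) ht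
    linarith
  have h8 : 0 ≤ 1 - Real.exp (-(t * (k ^ 2 - ek k))) := by linarith
  calc Real.exp (-t * ek k) - Real.exp (-t * ek k) * Real.exp (-(t * (k ^ 2 - ek k)))
      = (1 - Real.exp (-(t * (k ^ 2 - ek k)))) * Real.exp (-t * ek k) := by ring
    _ ≤ (t * k ^ 4) * Real.exp (-(cJ * t) * k ^ 2) :=
        mul_le_mul h7 h6 (Real.exp_pos _).le (by positivity)

/-- comparison of an integral over `[0, π]` with an integral over the half line -/
theorem comp {f h B : ℝ → ℝ} (hf : Continuous f) (hh : IntegrableOn h (Set.Ioi 0))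
    (hB : IntegrableOn B (Set.Ioi 0)) (h1 : ∀ k, 0 < k → k ≤ Real.pi → |f k - h k| ≤ B k)
    (h2 : ∀ k, Real.pi < k → |h k| ≤ B k) :
    |(∫ k in (0 : ℝ)..Real.pi, f k) - ∫ k in Set.Ioi (0 : ℝ), h k| ≤
      ∫ k in Set.Ioi (0 : ℝ), B k := by
  have e1 : ∫ k in (0 : ℝ)..Real.pi, f k =
      ∫ k in Set.Ioi (0 : ℝ), (Set.Ioc 0 Real.pi).indicator f k := by
    rw [intervalIntegral.integral_of_le Real.pi_pos.le,
      setIntegral_indicator measurableSet_Ioc]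
    congr 2
    ext x
    simp only [Set.mem_Ioc, Set.mem_inter_iff, Set.mem_Ioi]
    tauto
  have i1 : IntegrableOn ((Set.Ioc 0 Real.pi).indicator f) (Set.Ioi 0) := by
    have : IntegrableOn f (Set.Ioc 0 Real.pi) :=
      (hf.integrableOn_Icc (a := 0) (b := Real.pi)).mono_set Set.Ioc_subset_Icc_self
    exact (this.integrable_indicator measurableSet_Ioc).integrableOn
  rw [e1, ← integral_sub i1 hh, ← Real.norm_eq_abs]
  refine norm_integral_le_of_norm_le hB ?_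
  refine (ae_restrict_iff' measurableSet_Ioi).2 (Filter.Eventually.of_forall fun k hk => ?_)
  rw [Real.norm_eq_abs]
  by_cases hk2 : k ≤ Real.pi
  · have hm : k ∈ Set.Ioc 0 Real.pi := ⟨hk, hk2⟩
    rw [Set.indicator_of_mem hm]
    exact h1 k hk hk2
  · rw [Set.indicator_of_notMem (fun h => hk2 h.2), zero_sub, abs_neg]
    exact h2 k (not_le.1 hk2)

theorem gen (a : ℝ) (ha : 0 ≤ a) (p : ℕ) {f : ℝ → ℝ} (hf : Continuous f)
    (hb : ∀ k, 0 ≤ k → k ≤ Real.pi → |f k - a * k ^ (2 * p)| ≤ a * k ^ (2 * (p + 1))) {t : ℝ}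
    (ht : 0 < t) :
    |(∫ k in (0 : ℝ)..Real.pi, f k * Real.exp (-t * ek k)) -
      a * (Kj p * t ^ (-((p : ℝ) + 1 / 2)))| ≤
      a * (Kj (p + 2) * cJ ^ (-((p : ℝ) + 5 / 2)) + Kj (p + 1) * cJ ^ (-((p : ℝ) + 3 / 2))) *
        t ^ (-((p : ℝ) + 3 / 2)) := by
  have hpi := Real.pi_gt_three
  have hct : 0 < cJ * t := mul_pos cJ_pos ht
  have e1 : a * (Kj p * t ^ (-((p : ℝ) + 1 / 2))) =
      ∫ k in Set.Ioi (0 : ℝ), a * (k ^ (2 * p) * Real.exp (-t * k ^ 2)) := by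
    rw [integral_const_mul, mom p ht]
  have hcont : Continuous fun k : ℝ => f k * Real.exp (-t * ek k) := by
    unfold ek
    fun_prop
  have hI2 := momI (p + 2) hct
  have hI1 := momI (p + 1) hct
  have hB : IntegrableOn (fun k : ℝ => a * (t * (k ^ (2 * (p + 2)) * Real.exp (-(cJ * t) * k ^ 2)) +
      k ^ (2 * (p + 1)) * Real.exp (-(cJ * t) * k ^ 2))) (Set.Ioi 0) :=
    ((hI2.const_mul t).add hI1).const_mul a
  have hmain := comp hcont ((momI p ht).const_mul a) hB ?_ ?_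
  · rw [e1]
    refine hmain.trans (le_of_eq ?_)
    rw [integral_const_mul, integral_add (hI2.const_mul t) hI1, integral_const_mul, mom _ hct,
      mom _ hct]
    have r1 : t * (Kj (p + 2) * (cJ * t) ^ (-(((p + 2 : ℕ) : ℝ) + 1 / 2))) =
        Kj (p + 2) * cJ ^ (-((p : ℝ) + 5 / 2)) * t ^ (-((p : ℝ) + 3 / 2)) := by
      rw [Real.mul_rpow cJ_pos.le ht.le]
      have q1 : -(((p + 2 : ℕ) : ℝ) + 1 / 2) = -((p : ℝ) + 5 / 2) := by push_cast; ring
      have q2 : t ^ (-((p : ℝ) + 3 / 2)) = t * t ^ (-((p : ℝ) + 5 / 2)) := by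
        have : -((p : ℝ) + 3 / 2) = 1 + -((p : ℝ) + 5 / 2) := by ring
        rw [this, Real.rpow_add ht, Real.rpow_one]
      rw [q1, q2]
      ring
    have r2 : Kj (p + 1) * (cJ * t) ^ (-(((p + 1 : ℕ) : ℝ) + 1 / 2)) =
        Kj (p + 1) * cJ ^ (-((p : ℝ) + 3 / 2)) * t ^ (-((p : ℝ) + 3 / 2)) := by
      rw [Real.mul_rpow cJ_pos.le ht.le]
      have q1 : -(((p + 1 : ℕ) : ℝ) + 1 / 2) = -((p : ℝ) + 3 / 2) := by push_cast; ring
      rw [q1]
      ring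
    rw [r1, r2]
    ring
  · intro k hk hk2
    have hE := exp_diff ht.le hk.le hk2
    have hE1 : Real.exp (-t * ek k) ≤ Real.exp (-(cJ * t) * k ^ 2) := by
      apply Real.exp_le_exp.2
      have := mul_le_mul_of_nonneg_left (ek_ge hk.le hk2) ht.le
      nlinarith
    have hfk := hb k hk.le hk2
    have hkp : 0 ≤ a * k ^ (2 * p) := by positivity
    calc |f k * Real.exp (-t * ek k) - a * (k ^ (2 * p) * Real.exp (-t * k ^ 2))|
        = |(f k - a * k ^ (2 * p)) * Real.exp (-t * ek k) +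
            a * k ^ (2 * p) * (Real.exp (-t * ek k) - Real.exp (-t * k ^ 2))| := by
          congr 1; ring
      _ ≤ |(f k - a * k ^ (2 * p)) * Real.exp (-t * ek k)| +
            |a * k ^ (2 * p) * (Real.exp (-t * ek k) - Real.exp (-t * k ^ 2))| := abs_add_le _ _
      _ ≤ a * k ^ (2 * (p + 1)) * Real.exp (-(cJ * t) * k ^ 2) +
            a * k ^ (2 * p) * (t * k ^ 4 * Real.exp (-(cJ * t) * k ^ 2)) := by
          rw [abs_mul, abs_mul, abs_of_pos (Real.exp_pos _), abs_of_nonneg hkp]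
          refine add_le_add ?_ (mul_le_mul_of_nonneg_left hE hkp)
          exact mul_le_mul hfk hE1 (Real.exp_pos _).le (by positivity)
      _ = _ := by ring
  · intro k hk
    have hk0 : 0 < k := by linarith
    have hk1 : 1 ≤ k ^ 2 := one_le_pow₀ (by linarith)
    have h1 : Real.exp (-t * k ^ 2) ≤ Real.exp (-(cJ * t) * k ^ 2) := by
      apply Real.exp_le_exp.2
      have h3 : cJ * t ≤ t := by nlinarith [cJ_le]
      nlinarith [sq_nonneg k]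
    have h2 : 0 ≤ a * (k ^ (2 * p) * Real.exp (-t * k ^ 2)) := by positivity
    rw [abs_of_nonneg h2]
    refine mul_le_mul_of_nonneg_left ?_ ha
    have h4 : k ^ (2 * p) ≤ k ^ (2 * (p + 1)) := by
      rw [show 2 * (p + 1) = 2 * p + 2 by ring, pow_add]
      exact le_mul_of_one_le_right (by positivity) hk1
    have h5 : 0 ≤ t * (k ^ (2 * (p + 2)) * Real.exp (-(cJ * t) * k ^ 2)) := by positivity
    have h6 : k ^ (2 * p) * Real.exp (-t * k ^ 2) ≤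
        k ^ (2 * (p + 1)) * Real.exp (-(cJ * t) * k ^ 2) :=
      mul_le_mul h4 h1 (Real.exp_pos _).le (by positivity)
    linarith

theorem upp (a : ℝ) (ha : 0 ≤ a) (p : ℕ) {f : ℝ → ℝ} (hf : Continuous f)
    (hb : ∀ k, 0 ≤ k → k ≤ Real.pi → 0 ≤ f k ∧ f k ≤ a * k ^ (2 * p)) {t : ℝ} (ht : 0 ≤ t) :
    0 ≤ (∫ k in (0 : ℝ)..Real.pi, f k * Real.exp (-t * ek k)) ∧
    (∫ k in (0 : ℝ)..Real.pi, f k * Real.exp (-t * ek k)) ≤
      Real.exp 4 * a * Kj p * cJ ^ (-((p : ℝ) + 1 / 2)) * (1 + t) ^ (-((p : ℝ) + 1 / 2)) := by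
  have hpi := Real.pi_pos
  have ht1 : 0 < 1 + t := by linarith
  have hct : 0 < cJ * (1 + t) := mul_pos cJ_pos ht1
  have hcont : Continuous fun k : ℝ => f k * Real.exp (-t * ek k) := by
    unfold ek
    fun_prop
  refine ⟨?_, ?_⟩
  · refine intervalIntegral.integral_nonneg hpi.le fun k hk => ?_
    exact mul_nonneg (hb k hk.1 hk.2).1 (Real.exp_pos _).le
  · have hI := (momI p hct).const_mul (Real.exp 4 * a)
    have hmain := comp (f := fun k => f k * Real.exp (-t * ek k)) (h := fun _ => 0) hcont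
      (integrableOn_zero) hI ?_ ?_
    · have h2 := (le_abs_self _).trans hmain
      rw [integral_zero, sub_zero] at h2
      refine h2.trans (le_of_eq ?_)
      rw [integral_const_mul, mom _ hct, Real.mul_rpow cJ_pos.le ht1.le]
      ring
    · intro k hk hk2
      have hfk := hb k hk.le hk2
      rw [sub_zero, abs_of_nonneg (mul_nonneg hfk.1 (Real.exp_pos _).le)]
      have h3 : Real.exp (-t * ek k) ≤ Real.exp 4 * Real.exp (-(cJ * (1 + t)) * k ^ 2) := by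
        rw [← Real.exp_add]
        apply Real.exp_le_exp.2
        have h4 := ek_ge hk.le hk2
        have h5 := ek_le_four k
        nlinarith
      calc f k * Real.exp (-t * ek k)
          ≤ (a * k ^ (2 * p)) * (Real.exp 4 * Real.exp (-(cJ * (1 + t)) * k ^ 2)) :=
            mul_le_mul hfk.2 h3 (Real.exp_pos _).le (by positivity)
        _ = _ := by ring
    · intro k hk
      have hk0 : 0 < k := by linarith
      rw [abs_zero]
      positivity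

theorem Kj0 : Kj 0 = Real.sqrt Real.pi / 2 := by
  unfold Kj
  have : ((0 : ℕ) : ℝ) + 1 / 2 = 1 / 2 := by norm_num
  rw [this, Real.Gamma_one_half_eq]
  ring

theorem Kj1 : Kj 1 = Real.sqrt Real.pi / 4 := by
  unfold Kj
  have : ((1 : ℕ) : ℝ) + 1 / 2 = 1 / 2 + 1 := by norm_num
  rw [this, Real.Gamma_add_one (by norm_num), Real.Gamma_one_half_eq]
  ring

/-- the universal constant -/
def CH : ℝ := 1 + (4 * (Kj 2 * cJ ^ (-(((0 : ℕ) : ℝ) + 5 / 2)) +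
    Kj 1 * cJ ^ (-(((0 : ℕ) : ℝ) + 3 / 2)))) +
  (4 * (Kj 3 * cJ ^ (-(((1 : ℕ) : ℝ) + 5 / 2)) + Kj 2 * cJ ^ (-(((1 : ℕ) : ℝ) + 3 / 2)))) +
  Real.exp 4 * 4 * Kj 0 * cJ ^ (-(((0 : ℕ) : ℝ) + 1 / 2)) +
  Real.exp 4 * 4 * Kj 1 * cJ ^ (-(((1 : ℕ) : ℝ) + 1 / 2))

theorem cJr (x : ℝ) : 0 < cJ ^ x := Real.rpow_pos_of_pos cJ_pos x

theorem CH_ge : 1 ≤ CH ∧
    4 * (Kj 2 * cJ ^ (-(((0 : ℕ) : ℝ) + 5 / 2)) + Kj 1 * cJ ^ (-(((0 : ℕ) : ℝ) + 3 / 2))) ≤ CH ∧
    4 * (Kj 3 * cJ ^ (-(((1 : ℕ) : ℝ) + 5 / 2)) + Kj 2 * cJ ^ (-(((1 : ℕ) : ℝ) + 3 / 2))) ≤ CH ∧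
    Real.exp 4 * 4 * Kj 0 * cJ ^ (-(((0 : ℕ) : ℝ) + 1 / 2)) ≤ CH ∧
    Real.exp 4 * 4 * Kj 1 * cJ ^ (-(((1 : ℕ) : ℝ) + 1 / 2)) ≤ CH := by
  have k0 := Kj_pos 0
  have k1 := Kj_pos 1
  have k2 := Kj_pos 2
  have k3 := Kj_pos 3
  have c1 := cJr (-(((0 : ℕ) : ℝ) + 5 / 2))
  have c2 := cJr (-(((0 : ℕ) : ℝ) + 3 / 2))
  have c3 := cJr (-(((1 : ℕ) : ℝ) + 5 / 2))
  have c4 := cJr (-(((1 : ℕ) : ℝ) + 3 / 2))
  have c5 := cJr (-(((0 : ℕ) : ℝ) + 1 / 2))
  have c6 := cJr (-(((1 : ℕ) : ℝ) + 1 / 2))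
  have p1 : 0 < 4 * (Kj 2 * cJ ^ (-(((0 : ℕ) : ℝ) + 5 / 2)) +
    Kj 1 * cJ ^ (-(((0 : ℕ) : ℝ) + 3 / 2))) := by positivity
  have p2 : 0 < 4 * (Kj 3 * cJ ^ (-(((1 : ℕ) : ℝ) + 5 / 2)) +
    Kj 2 * cJ ^ (-(((1 : ℕ) : ℝ) + 3 / 2))) := by positivity
  have p3 : 0 < Real.exp 4 * 4 * Kj 0 * cJ ^ (-(((0 : ℕ) : ℝ) + 1 / 2)) := by positivity
  have p4 : 0 < Real.exp 4 * 4 * Kj 1 * cJ ^ (-(((1 : ℕ) : ℝ) + 1 / 2)) := by positivity
  unfold CH
  refine ⟨?_, ?_, ?_, ?_, ?_⟩ <;> linarith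

/-- the error bound after division by `π` -/
theorem divpi {I M E : ℝ} (h : |I - M| ≤ E) : |1 / Real.pi * I - 1 / Real.pi * M| ≤ E := by
  have hpi := Real.pi_gt_three
  rw [← mul_sub, abs_mul, abs_of_pos (by positivity)]
  have h1 : 1 / Real.pi ≤ 1 := by
    rw [div_le_one (by positivity)]
    linarith
  have h2 : 0 ≤ |I - M| := abs_nonneg _
  nlinarith

theorem upi {I E : ℝ} (h : 0 ≤ I ∧ I ≤ E) : 0 ≤ 1 / Real.pi * I ∧ 1 / Real.pi * I ≤ E := by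
  have hpi := Real.pi_gt_three
  have h1 : 1 / Real.pi ≤ 1 := by
    rw [div_le_one (by positivity)]
    linarith
  have h3 : 0 < 1 / Real.pi := by positivity
  exact ⟨mul_nonneg h3.le h.1, by nlinarith [h.1, h.2]⟩

theorem main1 {t : ℝ} (ht : 0 < t) (a : ℝ) :
    1 / Real.pi * (a * (Kj 0 * t ^ (-(((0 : ℕ) : ℝ) + 1 / 2)))) =
      a / Real.sqrt (4 * Real.pi * t) := by
  have hpi := Real.pi_pos
  have hs := Real.sqrt_pos.2 hpi
  have hst := Real.sqrt_pos.2 ht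
  have e1 : t ^ (-(((0 : ℕ) : ℝ) + 1 / 2)) = (Real.sqrt t)⁻¹ := by
    rw [Real.rpow_neg ht.le, Real.sqrt_eq_rpow]
    norm_num
  have e2 : Real.sqrt (4 * Real.pi * t) = 2 * Real.sqrt Real.pi * Real.sqrt t := by
    rw [Real.sqrt_mul (by positivity), Real.sqrt_mul (by norm_num)]
    rw [show (4 : ℝ) = 2 ^ 2 by norm_num, Real.sqrt_sq (by norm_num)]
  have e3 : Real.pi = Real.sqrt Real.pi * Real.sqrt Real.pi := (Real.mul_self_sqrt hpi.le).symm
  rw [e1, e2, Kj0]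
  have e4 : 1 / Real.pi = 1 / (Real.sqrt Real.pi * Real.sqrt Real.pi) := by rw [← e3]
  rw [e4]
  field_simp

theorem main2 {t : ℝ} (ht : 0 < t) :
    1 / Real.pi * (4 * (Kj 1 * t ^ (-(((1 : ℕ) : ℝ) + 1 / 2)))) =
      1 / (Real.sqrt Real.pi * t ^ (3 / 2 : ℝ)) := by
  have hpi := Real.pi_pos
  have hs := Real.sqrt_pos.2 hpi
  have hst : 0 < t ^ (3 / 2 : ℝ) := Real.rpow_pos_of_pos ht _
  have e1 : t ^ (-(((1 : ℕ) : ℝ) + 1 / 2)) = (t ^ (3 / 2 : ℝ))⁻¹ := by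
    rw [← Real.rpow_neg ht.le]
    norm_num
  have e3 : Real.pi = Real.sqrt Real.pi * Real.sqrt Real.pi := (Real.mul_self_sqrt hpi.le).symm
  rw [e1, Kj1]
  have e4 : 1 / Real.pi = 1 / (Real.sqrt Real.pi * Real.sqrt Real.pi) := by rw [← e3]
  rw [e4]
  field_simp

theorem contI {f : ℝ → ℝ} (hf : Continuous f) :
    Continuous fun t : ℝ => ∫ k in (0 : ℝ)..Real.pi, f k * Real.exp (-t * ek k) := by
  apply intervalIntegral.continuous_parametric_intervalIntegral_of_continuous'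
  unfold ek
  fun_prop

theorem hh_eq (t : ℝ) : hh t =
    1 / Real.pi * ∫ k in (0 : ℝ)..Real.pi, (fun _ : ℝ => (1 : ℝ)) k * Real.exp (-t * ek k) := by
  unfold hh
  simp only [one_mul]

theorem ww_eq (t : ℝ) : ww t = 1 / Real.pi *
    ∫ k in (0 : ℝ)..Real.pi, (fun k : ℝ => 4 * Real.sin k ^ 2) k * Real.exp (-t * ek k) := rfl

theorem gg_eq (t : ℝ) : gg t = 1 / Real.pi *
    ∫ k in (0 : ℝ)..Real.pi, (fun k : ℝ => 2 + 2 * Real.cos k) k * Real.exp (-t * ek k) := rfl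

theorem th : S_H := by
  have hpi := Real.pi_gt_three
  obtain ⟨hC1, hC2, hC3, hC4, hC5⟩ := CH_ge
  have cf1 : Continuous (fun _ : ℝ => (1 : ℝ)) := continuous_const
  have cf2 : Continuous (fun k : ℝ => 4 * Real.sin k ^ 2) := by fun_prop
  have cf3 : Continuous (fun k : ℝ => 2 + 2 * Real.cos k) := by fun_prop
  have q1 : ∀ k : ℝ, 0 ≤ k → k ≤ Real.pi →
      |(fun _ : ℝ => (1 : ℝ)) k - 1 * k ^ (2 * 0)| ≤ 1 * k ^ (2 * (0 + 1)) := by
    intro k h0 h1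
    simp only [mul_zero, pow_zero, mul_one, sub_self, abs_zero]
    positivity
  have q2 : ∀ k : ℝ, 0 ≤ k → k ≤ Real.pi →
      |(fun k : ℝ => 4 * Real.sin k ^ 2) k - 4 * k ^ (2 * 1)| ≤ 4 * k ^ (2 * (1 + 1)) := by
    intro k h0 h1
    have h2 := sq_sub_sin h0
    have h3 : Real.sin k ^ 2 ≤ k ^ 2 :=
      pow_le_pow_left₀ (Real.sin_nonneg_of_nonneg_of_le_pi h0 h1) (Real.sin_le h0) 2
    have h4 : 0 ≤ k ^ 4 := by positivity
    change |4 * Real.sin k ^ 2 - 4 * k ^ 2| ≤ 4 * k ^ 4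
    rw [abs_le]
    constructor <;> linarith
  have q3 : ∀ k : ℝ, 0 ≤ k → k ≤ Real.pi →
      |(fun k : ℝ => 2 + 2 * Real.cos k) k - 4 * k ^ (2 * 0)| ≤ 4 * k ^ (2 * (0 + 1)) := by
    intro k h0 h1
    have h2 := ek_le k
    have h3 := ek_nonneg k
    unfold ek at h2 h3
    have h4 : 0 ≤ k ^ 2 := by positivity
    change |2 + 2 * Real.cos k - 4 * k ^ 0| ≤ 4 * k ^ 2
    rw [pow_zero, abs_le]
    constructor <;> linarith
  refine ⟨CH, hC1, ?_, ?_, ?_, ?_, ?_⟩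
  · intro t ht
    have ht0 : 0 < t := by linarith
    have s1 : 0 < t ^ (-(((0 : ℕ) : ℝ) + 3 / 2)) := Real.rpow_pos_of_pos ht0 _
    have s2 : 0 < t ^ (-(((1 : ℕ) : ℝ) + 3 / 2)) := Real.rpow_pos_of_pos ht0 _
    have d1 : CH / t ^ (3 / 2 : ℝ) = CH * t ^ (-(((0 : ℕ) : ℝ) + 3 / 2)) := by
      rw [Real.rpow_neg ht0.le, div_eq_mul_inv]
      norm_num
    have d2 : CH / t ^ (5 / 2 : ℝ) = CH * t ^ (-(((1 : ℕ) : ℝ) + 3 / 2)) := by
      rw [Real.rpow_neg ht0.le, div_eq_mul_inv]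
      norm_num
    rw [d1, d2]
    refine ⟨?_, ?_, ?_⟩
    · have h1 := divpi (gen 1 (by norm_num) 0 cf1 q1 ht0)
      rw [main1 ht0, ← hh_eq] at h1
      refine h1.trans (mul_le_mul_of_nonneg_right ?_ s1.le)
      have k1 := Kj_pos 1
      have k2 := Kj_pos 2
      have c1 := cJr (-(((0 : ℕ) : ℝ) + 5 / 2))
      have c2 := cJr (-(((0 : ℕ) : ℝ) + 3 / 2))
      have p1 : 0 < Kj 2 * cJ ^ (-(((0 : ℕ) : ℝ) + 5 / 2)) +
        Kj 1 * cJ ^ (-(((0 : ℕ) : ℝ) + 3 / 2)) := by positivity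
      have : 1 * (Kj (0 + 2) * cJ ^ (-(((0 : ℕ) : ℝ) + 5 / 2)) +
        Kj (0 + 1) * cJ ^ (-(((0 : ℕ) : ℝ) + 3 / 2))) = Kj 2 * cJ ^ (-(((0 : ℕ) : ℝ) + 5 / 2)) +
        Kj 1 * cJ ^ (-(((0 : ℕ) : ℝ) + 3 / 2)) := by ring_nf
      rw [this]
      linarith
    · have h1 := divpi (gen 4 (by norm_num) 1 cf2 q2 ht0)
      rw [main2 ht0, ← ww_eq] at h1
      exact h1.trans (mul_le_mul_of_nonneg_right hC3 s2.le)
    · have h1 := divpi (gen 4 (by norm_num) 0 cf3 q3 ht0)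
      rw [main1 ht0, ← gg_eq] at h1
      exact h1.trans (mul_le_mul_of_nonneg_right hC2 s1.le)
  · intro t ht
    have ht0 : 0 < 1 + t := by linarith
    have s1 : 0 < (1 + t) ^ (-(((0 : ℕ) : ℝ) + 1 / 2)) := Real.rpow_pos_of_pos ht0 _
    have s2 : 0 < (1 + t) ^ (-(((1 : ℕ) : ℝ) + 1 / 2)) := Real.rpow_pos_of_pos ht0 _
    have d1 : CH / Real.sqrt (1 + t) = CH * (1 + t) ^ (-(((0 : ℕ) : ℝ) + 1 / 2)) := by
      rw [Real.rpow_neg ht0.le, div_eq_mul_inv, Real.sqrt_eq_rpow]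
      norm_num
    have d2 : CH / (1 + t) ^ (3 / 2 : ℝ) = CH * (1 + t) ^ (-(((1 : ℕ) : ℝ) + 1 / 2)) := by
      rw [Real.rpow_neg ht0.le, div_eq_mul_inv]
      norm_num
    rw [d1, d2]
    have u1 := upi (upp 4 (by norm_num) 0 cf1 (fun k _ _ => by norm_num) ht)
    have u2 := upi (upp 4 (by norm_num) 1 cf2 (fun k h0 h1 => by
      have h3 : Real.sin k ^ 2 ≤ k ^ 2 :=
        pow_le_pow_left₀ (Real.sin_nonneg_of_nonneg_of_le_pi h0 h1) (Real.sin_le h0) 2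
      exact ⟨by positivity, by simp only [mul_one]; linarith⟩) ht)
    have u3 := upi (upp 4 (by norm_num) 0 cf3 (fun k h0 h1 => by
      have h3 := Real.neg_one_le_cos k
      have h4 := Real.cos_le_one k
      simp only [mul_zero, pow_zero]
      constructor <;> linarith) ht)
    rw [← hh_eq] at u1
    rw [← ww_eq] at u2
    rw [← gg_eq] at u3
    exact ⟨u1.1, u1.2.trans (mul_le_mul_of_nonneg_right hC4 s1.le), u2.1,
      u2.2.trans (mul_le_mul_of_nonneg_right hC5 s2.le), u3.1,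
      u3.2.trans (mul_le_mul_of_nonneg_right hC4 s1.le)⟩
  · have : hh = fun t => 1 / Real.pi * ∫ k in (0 : ℝ)..Real.pi,
        (fun _ : ℝ => (1 : ℝ)) k * Real.exp (-t * ek k) := funext hh_eq
    rw [this]
    exact continuous_const.mul (contI cf1)
  · exact continuous_const.mul (contI cf2)
  · exact continuous_const.mul (contI cf3)

end

end Pool.Agent.H117.AF
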